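import Pool.Agent.Q278.Alt3

set_option autoImplicit false

/-! Supercongruences for alternating sums weighted by odd powers of `4 k - 1`. -/

namespace Pool.Agent.Results.MP_638395_nt.Full

open Finset Q278.PI Q278.Alt

/-- The rising factorial `(x)_k`. -/
def poch (x : ℚ) (k : ℕ) : ℚ := ∏ i ∈ range k, (x + i)

/-- `S_m(N)`. -/
def S (m N : ℕ) : ℚ :=
  ∑ k ∈ range (N + 1), (-1) ^ k * (4 * (k : ℚ) - 1) ^ m * poch (-(1 / 2)) k ^ 3 / (k.factorial : ℚ) ^ 3

/-- `x ≡ y (mod p ^ n)`: `x - y` is zero or has `p`-adic valuation at least `n`. -/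
def Cong (p n : ℕ) (x y : ℚ) : Prop := x - y = 0 ∨ (n : ℤ) ≤ padicValRat p (x - y)

/-- the coefficients of `(x + 1) ^ 3 (x - 2) ^ e` -/
def A : ℕ → ℕ → ℤ
  | 0, j => (Nat.choose 3 j : ℤ)
  | e + 1, 0 => -2 * A e 0
  | e + 1, j + 1 => A e j - 2 * A e (j + 1)

theorem A_large : ∀ e j : ℕ, e + 3 < j → A e j = 0 := by
  intro e
  induction e with
  | zero => intro j hj; rw [A, Nat.choose_eq_zero_of_lt (by omega)]; rfl
  | succ e ih =>
    intro j hj
    obtain ⟨i, rfl⟩ : ∃ i, j = i + 1 := ⟨j - 1, by omega⟩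
    rw [A, ih i (by omega), ih (i + 1) (by omega)]
    rfl

theorem A_top : ∀ e : ℕ, A e (e + 3) = 1 := by
  intro e
  induction e with
  | zero => rfl
  | succ e ih =>
    rw [show e + 1 + 3 = (e + 3) + 1 by ring, A, ih, A_large e _ (by omega)]
    rfl

theorem A_sum (x : ℚ) : ∀ e : ℕ, (x + 1) ^ 3 * (x - 2) ^ e = ∑ j ∈ range (e + 4), (A e j : ℚ) * x ^ j := by
  intro e
  induction e with
  | zero =>
    simp [sum_range_succ, A, Nat.choose]
    ring
  | succ e ih =>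
    rw [show e + 1 + 4 = (e + 4) + 1 by ring, sum_range_succ']
    have h1 : ∑ k ∈ range (e + 4), ((A (e + 1) (k + 1) : ℤ) : ℚ) * x ^ (k + 1) =
        x * ∑ k ∈ range (e + 4), (A e k : ℚ) * x ^ k -
        2 * ∑ k ∈ range (e + 4), (A e (k + 1) : ℚ) * x ^ (k + 1) := by
      rw [mul_sum, mul_sum, ← sum_sub_distrib]
      apply sum_congr rfl
      intro k _
      rw [A]
      push_cast
      ring
    have h2 : ∑ k ∈ range (e + 4), (A e (k + 1) : ℚ) * x ^ (k + 1) + (A e 0 : ℚ) * x ^ 0 =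
        ∑ j ∈ range (e + 4), (A e j : ℚ) * x ^ j := by
      rw [← sum_range_succ' (fun j => (A e j : ℚ) * x ^ j), sum_range_succ, A_large e (e + 4) (by omega)]
      simp
    rw [h1, A]
    push_cast
    rw [pow_succ (x - 2)]
    have h3 := ih
    rw [← h3] at h2 ⊢
    linear_combination 2 * h2

/-- The odd part. -/
theorem A_odd (x : ℚ) {e : ℕ} (he : Even e) : ((x + 1) ^ 3 * (x - 2) ^ e +
    (x - 1) ^ 3 * (x + 2) ^ e) / 2 = x ^ (e + 3) + ∑ j ∈ range (e + 3), if Odd j then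
      (A e j : ℚ) * x ^ j else 0 := by
  have h1 := A_sum x e
  have h2 := A_sum (-x) e
  have h3 : (-x + 1) ^ 3 * (-x - 2) ^ e = -((x - 1) ^ 3 * (x + 2) ^ e) := by
    have : (-x - 2) ^ e = (x + 2) ^ e := by
      rw [show -x - 2 = -(x + 2) by ring, he.neg_pow]
    rw [this]; ring
  rw [h3] at h2
  have h4 : ∑ j ∈ range (e + 4), (A e j : ℚ) * x ^ j - ∑ j ∈ range (e + 4), (A e j : ℚ) * (-x) ^ j =
      2 * ∑ j ∈ range (e + 4), if Odd j then (A e j : ℚ) * x ^ j else 0 := by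
    rw [mul_sum, ← sum_sub_distrib]
    apply sum_congr rfl
    intro j _
    split_ifs with hj
    · rw [hj.neg_pow]; ring
    · rw [Nat.not_odd_iff_even] at hj
      rw [hj.neg_pow]; ring
  have h5 : ∑ j ∈ range (e + 4), (if Odd j then (A e j : ℚ) * x ^ j else 0) =
      ∑ j ∈ range (e + 3), (if Odd j then (A e j : ℚ) * x ^ j else 0) + x ^ (e + 3) := by
    rw [sum_range_succ, A_top, if_pos]
    · push_cast; ring
    · exact he.add_odd (by decide)
  rw [h5] at h4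
  linear_combination (1 / 2) * h1 - (1 / 2) * h2 + (1 / 2) * h4

/-- The constants `c_m`. -/
def c : ℕ → ℤ
  | 0 => 0
  | 1 => -1
  | 2 => 0
  | e + 3 => -∑ j : Fin (e + 3), if Odd j.1 then A e j.1 * c j.1 else 0
termination_by m => m
decreasing_by exact j.2

theorem c_succ (e : ℕ) : c (e + 3) = -∑ j ∈ range (e + 3), if Odd j then A e j * c j else 0 := by
  rw [c, Finset.sum_range]

/-- the terms -/
noncomputable def u (k : ℕ) : ℚ := (-1) ^ k * a k ^ 3 / (k.factorial : ℚ) ^ 3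

theorem S_eq (m N : ℕ) : S m N = ∑ k ∈ range (N + 1), (4 * (k : ℚ) - 1) ^ m * u k := by
  unfold S u
  apply sum_congr rfl
  intro k _
  have : poch (-(1 / 2)) k = a k := rfl
  rw [this]
  ring

theorem u_succ (k : ℕ) : u (k + 1) * (2 * (k : ℚ) + 2) ^ 3 = -u k * (2 * (k : ℚ) - 1) ^ 3 := by
  unfold u
  rw [a_succ, Nat.factorial_succ]
  have h1 : ((k.factorial : ℕ) : ℚ) ≠ 0 := by exact_mod_cast Nat.factorial_ne_zero k
  have h2 : (k : ℚ) + 1 ≠ 0 := by positivity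
  push_cast
  rw [pow_succ (-1 : ℚ) k]
  field_simp

/-- the telescoping -/
theorem tele {e : ℕ} (he : Even e) (N : ℕ) : S (e + 3) N + ∑ j ∈ range (e + 3),
    (if Odd j then (A e j : ℚ) * S j N else 0) =
    -32 * (((N : ℚ) + 1) ^ 3 * (4 * N + 1) ^ e * u (N + 1)) := by
  have h1 : ∀ k : ℕ, (4 * (k : ℚ) - 1) ^ (e + 3) * u k + ∑ j ∈ range (e + 3),
      (if Odd j then (A e j : ℚ) * ((4 * (k : ℚ) - 1) ^ j * u k) else 0) =
      -32 * ((((k + 1 : ℕ) : ℚ)) ^ 3 * (4 * ((k + 1 : ℕ) : ℚ) - 3) ^ e * u (k + 1)) -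
      -32 * ((k : ℚ) ^ 3 * (4 * (k : ℚ) - 3) ^ e * u k) := by
    intro k
    have h2 := A_odd (4 * (k : ℚ) - 1) he
    have h3 := u_succ k
    have h4 : ∑ j ∈ range (e + 3), (if Odd j then (A e j : ℚ) * ((4 * (k : ℚ) - 1) ^ j * u k) else 0) =
        (∑ j ∈ range (e + 3), if Odd j then (A e j : ℚ) * (4 * (k : ℚ) - 1) ^ j else 0) * u k := by
      rw [sum_mul]
      apply sum_congr rfl
      intro j _
      split_ifs <;> ring
    rw [h4]
    have h5 : (4 * (k : ℚ) - 1 - 2) = 4 * (k : ℚ) - 3 := by ring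
    have h6 : (4 * (k : ℚ) - 1 + 2) = 4 * ((k + 1 : ℕ) : ℚ) - 3 := by push_cast; ring
    rw [h5, h6] at h2
    have h7 : (((k + 1 : ℕ) : ℚ)) = (2 * (k : ℚ) + 2) / 2 := by push_cast; ring
    generalize (4 * ((k + 1 : ℕ) : ℚ) - 3) ^ e = z1 at *
    rw [h7]
    generalize (4 * (k : ℚ) - 3) ^ e = z2 at *
    linear_combination -u k * h2 + 4 * z1 * h3
  have h2 := sum_range_sub (fun k : ℕ => -32 * ((k : ℚ) ^ 3 * (4 * (k : ℚ) - 3) ^ e * u k)) (N + 1)
  rw [← sum_congr rfl (fun k _ => h1 k), sum_add_distrib, sum_comm] at h2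
  rw [S_eq]
  have h3 : ∑ j ∈ range (e + 3), (if Odd j then (A e j : ℚ) * S j N else 0) =
      ∑ j ∈ range (e + 3), ∑ k ∈ range (N + 1),
      (if Odd j then (A e j : ℚ) * ((4 * (k : ℚ) - 1) ^ j * u k) else 0) := by
    apply sum_congr rfl
    intro j _
    split_ifs
    · rw [S_eq, mul_sum]
    · simp
  rw [h3, h2]
  push_cast
  ring

section padic

variable {p : ℕ} [hp : Fact p.Prime]

theorem bdry (hp2 : p ≠ 2) {r h N : ℕ} (hP : p ^ r = 2 * h + 1) (hr : 1 ≤ r)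
    (hN : N = h + 1 ∨ N = 2 * h) (e : ℕ) :
    -32 * (((N : ℚ) + 1) ^ 3 * (4 * N + 1) ^ e * u (N + 1)) ∈ I p (r + 2) := by
  have h1 : p ^ r ∣ N.centralBinom := by
    rcases hN with h | h
    · rw [h]; exact cb_dvd_one hP
    · rw [h]; exact cb_dvd_two hP
  obtain ⟨x, hx⟩ := h1
  unfold u
  rw [a_cb, Nat.factorial_succ]
  have h1 : ((N.factorial : ℕ) : ℚ) ≠ 0 := by exact_mod_cast Nat.factorial_ne_zero N
  have h2 : (N : ℚ) + 1 ≠ 0 := by positivity
  have e1 : (N.centralBinom : ℚ) = (p : ℚ) ^ r * x := by rw [hx]; push_cast; ring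
  have e2 : -32 * (((N : ℚ) + 1) ^ 3 * (4 * N + 1) ^ e * ((-1) ^ (N + 1) * (-(1 / 2) *
      (N.centralBinom : ℚ) * (N.factorial : ℚ) / 4 ^ N) ^ 3 /
      (((N + 1) * N.factorial : ℕ) : ℚ) ^ 3)) =
      (4 * ((4 * N + 1 : ℕ) : ℚ) ^ e * (-1) ^ (N + 1) * (x : ℚ) ^ 3 * (1 / 4 ^ (3 * N))) *
      (p : ℚ) ^ (3 * r) := by
    have e3 : (4 : ℚ) ^ (3 * N) = (4 ^ N) ^ 3 := by rw [← pow_mul, mul_comm]
    have e4 : (p : ℚ) ^ (3 * r) = ((p : ℚ) ^ r) ^ 3 := by rw [← pow_mul, mul_comm]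
    rw [e1, e3, e4]
    push_cast
    field_simp
    ring
  rw [e2]
  apply mul_O _ (mono (by omega) (p_pow _))
  have m1 : (-1 : ℚ) ∈ O p := (O p).neg_mem (O p).one_mem
  have m4 : (4 : ℚ) ∈ O p := by exact_mod_cast nat_O (p := p) 4
  exact (O p).mul_mem ((O p).mul_mem ((O p).mul_mem ((O p).mul_mem m4 ((O p).pow_mem (nat_O _) _))
    ((O p).pow_mem m1 _)) ((O p).pow_mem (nat_O _) 3)) (four_pow hp2 _)

theorem S_one (hp2 : p ≠ 2) {r h N : ℕ} (hP : p ^ r = 2 * h + 1) (hr : 1 ≤ r)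
    (hN : N = h + 1 ∨ N = 2 * h) : S 1 N + (p : ℚ) ^ r * (-1) ^ h ∈ I p (r + 2) := by
  have h1 := base hp2 hP hr hN
  convert h1 using 2
  rw [S_eq]
  apply sum_congr rfl
  intro k _
  rw [F_zero]
  unfold u
  ring

theorem all (hp2 : p ≠ 2) {r h N : ℕ} (hP : p ^ r = 2 * h + 1) (hr : 1 ≤ r)
    (hN : N = h + 1 ∨ N = 2 * h) : ∀ m : ℕ, Odd m →
    S m N - (c m : ℚ) * ((p : ℚ) ^ r * (-1) ^ h) ∈ I p (r + 2) := by
  intro m
  induction m using Nat.strong_induction_on with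
  | _ m ih =>
    intro hm
    match m, hm with
    | 0, hm => exact absurd hm (by decide)
    | 2, hm => exact absurd hm (by decide)
    | 1, _ =>
      have h1 := S_one hp2 hP hr hN
      rw [c]
      convert h1 using 1
      push_cast
      ring
    | e + 3, hm =>
      have he : Even e := by
        rcases Nat.even_or_odd e with h | h
        · exact h
        · exfalso
          rw [Nat.odd_iff] at hm h
          omega
      have h1 := tele he N
      have h2 := bdry hp2 hP hr hN e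
      rw [← h1] at h2
      have h3 : ∑ j ∈ range (e + 3), (if Odd j then (A e j : ℚ) * (S j N -
          (c j : ℚ) * ((p : ℚ) ^ r * (-1) ^ h)) else 0) ∈ I p (r + 2) := by
        apply AddSubgroup.sum_mem
        intro j hj
        split_ifs with hjo
        · exact mul_O (int_O _) (ih j (mem_range.1 hj) hjo)
        · exact (I p (r + 2)).zero_mem
      have h4 := (I p (r + 2)).sub_mem h2 h3
      convert h4 using 1
      have h5 : ∑ j ∈ range (e + 3), (if Odd j then (A e j : ℚ) * (S j N -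
          (c j : ℚ) * ((p : ℚ) ^ r * (-1) ^ h)) else 0) = ∑ j ∈ range (e + 3),
          (if Odd j then (A e j : ℚ) * S j N else 0) +
          (c (e + 3) : ℚ) * ((p : ℚ) ^ r * (-1) ^ h) := by
        rw [c_succ]
        push_cast
        rw [neg_mul, sum_mul, ← sub_eq_add_neg, ← sum_sub_distrib]
        apply sum_congr rfl
        intro j _
        split_ifs <;> ring
      rw [h5]
      ring

end padic

theorem cong_of_mem {p n : ℕ} [hp : Fact p.Prime] {x y : ℚ} (h : x - y ∈ I p n) :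
    Cong p n x y := by
  obtain ⟨z, hz, e⟩ := h
  rcases eq_or_ne z 0 with h0 | h0
  · left; rw [e, h0, mul_zero]
  · right
    have h1 : (p : ℚ) ≠ 0 := by exact_mod_cast hp.out.ne_zero
    rw [e, padicValRat.mul (pow_ne_zero _ h1) h0, padicValRat.pow, padicValRat.self hp.out.one_lt]
    have h2 : 0 ≤ padicValRat p z := by
      unfold padicValRat
      rw [padicValNat.eq_zero_of_not_dvd hz]
      simp
    linarith

/-- The sign. -/
theorem sign {p : ℕ} (hp : Odd p) : ∀ r : ℕ, (-1 : ℚ) ^ ((p ^ r - 1) / 2) = (-1) ^ ((p - 1) * r / 2) := by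
  obtain ⟨t, ht⟩ := hp
  have key : ∀ r : ℕ, ∃ h, p ^ r = 2 * h + 1 ∧ (-1 : ℚ) ^ h = (-1) ^ (t * r) := by
    intro r
    induction r with
    | zero => exact ⟨0, by simp⟩
    | succ r ih =>
      obtain ⟨h, h1, h2⟩ := ih
      refine ⟨2 * (t * h) + (h + t), ?_, ?_⟩
      · rw [pow_succ, h1, ht]; ring
      · rw [pow_add, pow_mul, show (-1 : ℚ) ^ 2 = 1 by norm_num, one_pow, one_mul, pow_add, h2,
          mul_add, mul_one, pow_add]
  intro r
  obtain ⟨h, h1, h2⟩ := key r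
  rw [h1, show (2 * h + 1 - 1) / 2 = h by omega, h2, ht,
    show (2 * t + 1 - 1) * r / 2 = t * r by
      rw [show (2 * t + 1 - 1) * r = 2 * (t * r) by rw [Nat.add_sub_cancel]; ring]; omega]

theorem c_vals : c 1 = -1 ∧ c 3 = 3 ∧ c 5 = 23 ∧ c 7 = -5 ∧ c 9 = 1647 ∧ c 11 = -96973 := by
  have h1 : c 1 = -1 := by rw [c]
  have h3 : c 3 = 3 := by
    rw [c_succ 0]
    simp [sum_range_succ, h1]
    decide
  have h5 : c 5 = 23 := by
    rw [c_succ 2]
    simp [sum_range_succ, h1, h3]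
    decide
  have h7 : c 7 = -5 := by
    rw [c_succ 4]
    simp [sum_range_succ, h1, h3, h5]
    decide
  have h9 : c 9 = 1647 := by
    rw [c_succ 6]
    simp [sum_range_succ, h1, h3, h5, h7]
    decide
  have h11 : c 11 = -96973 := by
    rw [c_succ 8]
    simp [sum_range_succ, h1, h3, h5, h7, h9]
    decide
  exact ⟨h1, h3, h5, h7, h9, h11⟩

/-- **MP_638395_nt**, Q1: the constants exist for all odd `m`, with the conjectured values. -/
theorem result : ∃ c : ℕ → ℤ,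
    (c 1 = -1 ∧ c 3 = 3 ∧ c 5 = 23 ∧ c 7 = -5 ∧ c 9 = 1647 ∧ c 11 = -96973) ∧
    ∀ m : ℕ, Odd m → ∀ p : ℕ, p.Prime → Odd p → ∀ r : ℕ, 1 ≤ r →
      Cong p (r + 2) (S m ((p ^ r + 1) / 2)) (c m * p ^ r * (-1) ^ ((p - 1) * r / 2)) ∧
      Cong p (r + 2) (S m (p ^ r - 1)) (c m * p ^ r * (-1) ^ ((p - 1) * r / 2)) := by
  refine ⟨c, c_vals, ?_⟩
  intro m hm p hp hpo r hr
  have : Fact p.Prime := ⟨hp⟩
  have hp2 : p ≠ 2 := by rintro rfl; revert hpo; decide
  obtain ⟨h, hP⟩ := hpo.pow (n := r)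
  have hs := sign hpo r
  rw [hP, show (2 * h + 1 - 1) / 2 = h by omega] at hs
  constructor
  · apply cong_of_mem
    have h1 := all hp2 hP hr (N := h + 1) (Or.inl rfl) m hm
    rw [hP, show (2 * h + 1 + 1) / 2 = h + 1 by omega, ← hs]
    convert h1 using 1
    ring
  · apply cong_of_mem
    have h1 := all hp2 hP hr (N := 2 * h) (Or.inr rfl) m hm
    rw [hP, show 2 * h + 1 - 1 = 2 * h by omega, ← hs]
    convert h1 using 1
    ring

end Pool.Agent.Results.MP_638395_nt.Full
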